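import Pool.Agent.Y206.Q.Stm

/-!
# The projection of a ruling line from a general point (QG-LINK)
-/

set_option autoImplicit false

open MvPolynomial
open Pool.Agent.Helper947.Geo

namespace Pool.Agent.Y161.QG

open Pool.Agent.Y206.Q

/-- the inclusion of the hyperplane -/
def emb (y : Fin 3 → ℂ) : Fin 4 → ℂ := ![y 0, y 1, y 2, 0]

lemma emb_projv (P v : Fin 4 → ℂ) :
    emb (projv P v) = P (Fin.last 3) • v - v (Fin.last 3) • P := by
  funext i
  fin_cases i
  · simp [emb, projv]
  · simp [emb, projv]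
  · simp [emb, projv]
  · simp [emb]
    show (0 : ℂ) = P (Fin.last 3) * v (Fin.last 3) - v (Fin.last 3) * P (Fin.last 3)
    ring

/-- the coefficients of a linear form -/
noncomputable def cfs (L : (Fin 4 → ℂ) →ₗ[ℂ] ℂ) : Fin 4 → ℂ := fun i => L (Pi.single i 1)

lemma cfs_dot (L : (Fin 4 → ℂ) →ₗ[ℂ] ℂ) (v : Fin 4 → ℂ) : cfs L ⬝ᵥ v = L v := by
  rw [LinearMap.pi_apply_eq_sum_univ L v]
  unfold dotProduct cfs
  refine Finset.sum_congr rfl fun i _ => ?_
  rw [smul_eq_mul, mul_comm]
  congr 2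
  funext j
  simp [Pi.single_apply, eq_comm]

lemma lf_cfs_ne {L : (Fin 4 → ℂ) →ₗ[ℂ] ℂ} {v : Fin 4 → ℂ} (h : L v ≠ 0) : lf (cfs L) ≠ 0 := by
  intro h0
  apply h
  rw [← cfs_dot, ← eval_lf, h0, map_zero]

theorem link : S_LINK := by
  intro e he K _ s t hs ht s₀ hs₀
  classical
  -- coordinates
  let b : Module.Basis (Fin 2 × Fin 2) ℂ (Fin 4 → ℂ) :=
    basisOfLinearIndependentOfCardEqFinrank he (by simp)
  have hb : ∀ p, b p = e p.1 p.2 := fun p => by
    rw [coe_basisOfLinearIndependentOfCardEqFinrank]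
  have hbE : ∀ s' t' : Fin 2 → ℂ, E e s' t' = ∑ p : Fin 2 × Fin 2, (s' p.1 * t' p.2) • b p := by
    intro s' t'
    rw [Fintype.sum_prod_type]
    simp only [Fin.sum_univ_two, hb]
    unfold E
    abel
  have hcE : ∀ (s' t' : Fin 2 → ℂ) (p : Fin 2 × Fin 2), b.coord p (E e s' t') = s' p.1 * t' p.2 := by
    intro s' t' p
    rw [hbE, map_sum, Finset.sum_eq_single p]
    · rw [map_smul, Module.Basis.coord_apply, Module.Basis.repr_self, Finsupp.single_eq_same,
        smul_eq_mul, mul_one]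
    · intro p' _ hp'
      rw [map_smul, Module.Basis.coord_apply, Module.Basis.repr_self,
        Finsupp.single_eq_of_ne (Ne.symm hp'), smul_zero]
    · intro h; exact absurd (Finset.mem_univ p) h
  let T : Fin 2 → ((Fin 4 → ℂ) →ₗ[ℂ] ℂ) := fun j => s₀ 0 • b.coord (1, j) - s₀ 1 • b.coord (0, j)
  have hT : ∀ j v, T j v = s₀ 0 * b.coord (1, j) v - s₀ 1 * b.coord (0, j) v := fun j v => rfl
  have hTE : ∀ (s' t' : Fin 2 → ℂ) j, T j (E e s' t') = dt s₀ s' * t' j := by
    intro s' t' j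
    rw [hT, hcE, hcE]
    unfold dt
    ring
  -- a vector `s'` with `dt s₀ s' = 1`
  obtain ⟨s', hs'⟩ : ∃ s' : Fin 2 → ℂ, dt s₀ s' = 1 := by
    by_cases h0 : s₀ 0 = 0
    · have h1 : s₀ 1 ≠ 0 := by
        intro h1
        apply hs₀
        funext i
        fin_cases i
        · exact h0
        · exact h1
      refine ⟨![-(s₀ 1)⁻¹, 0], ?_⟩
      simp [dt, h1]
    · refine ⟨![0, (s₀ 0)⁻¹], ?_⟩
      simp [dt, h0]
  -- the linear forms `P ↦ dt (t k) (τ P)`
  let D : K → ((Fin 4 → ℂ) →ₗ[ℂ] ℂ) := fun k => t k 0 • T 1 - t k 1 • T 0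
  have hD : ∀ k v, D k v = t k 0 * T 1 v - t k 1 * T 0 v := fun k v => rfl
  have hD0 : ∀ k, lf (cfs (D k)) ≠ 0 := by
    intro k
    by_cases h0 : t k 0 = 0
    · have h1 : t k 1 ≠ 0 := by
        intro h1
        apply ht k
        funext i
        fin_cases i
        · exact h0
        · exact h1
      apply lf_cfs_ne (v := E e s' ![1, 0])
      rw [hD, hTE, hTE, hs', h0]
      simpa using h1
    · apply lf_cfs_ne (v := E e s' ![0, 1])
      rw [hD, hTE, hTE, hs']
      simpa using h0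
  have hT0 : lf (cfs (T 0)) ≠ 0 := by
    apply lf_cfs_ne (v := E e s' ![1, 0])
    rw [hTE, hs']
    simp
  refine ⟨X (Fin.last 3) * (∏ k, lf (cfs (D k))) * lf (cfs (T 0)), ?_, ?_⟩
  · exact mul_ne_zero (mul_ne_zero (X_ne_zero _) (Finset.prod_ne_zero_iff.2 fun k _ => hD0 k)) hT0
  intro P hP
  rw [map_mul, map_mul, eval_X, map_prod] at hP
  have hP3 : P (Fin.last 3) ≠ 0 := left_ne_zero_of_mul (left_ne_zero_of_mul hP)
  have hPD : ∀ k, D k P ≠ 0 := by
    intro k
    have h1 := Finset.prod_ne_zero_iff.1 (right_ne_zero_of_mul (left_ne_zero_of_mul hP)) k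
      (Finset.mem_univ k)
    rwa [eval_lf, cfs_dot] at h1
  have hPT : T 0 P ≠ 0 := by
    have h1 := right_ne_zero_of_mul hP
    rwa [eval_lf, cfs_dot] at h1
  refine ⟨hP3, ?_⟩
  let Z : (Fin 4 → ℂ) →ₗ[ℂ] ℂ := (T 1 P) • T 0 - (T 0 P) • T 1
  have hZ : ∀ v, Z v = T 1 P * T 0 v - T 0 P * T 1 v := fun v => rfl
  have hZP : Z P = 0 := by rw [hZ]; ring
  let η : Fin 3 → ℂ := fun i => cfs Z i.castSucc
  have hη : ∀ y : Fin 3 → ℂ, η ⬝ᵥ y = Z (emb y) := by
    intro y
    rw [← cfs_dot]
    simp only [dotProduct, Fin.sum_univ_three, Fin.sum_univ_four]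
    simp [η, emb]
  have hηp : ∀ v, η ⬝ᵥ projv P v = P (Fin.last 3) * Z v := by
    intro v
    rw [hη, emb_projv, map_sub, map_smul, map_smul, hZP, smul_zero, sub_zero, smul_eq_mul]
  have hZE : ∀ s1 t1 : Fin 2 → ℂ, Z (E e s1 t1) = dt s₀ s1 * (T 1 P * t1 0 - T 0 P * t1 1) := by
    intro s1 t1
    rw [hZ, hTE, hTE]
    ring
  have hss : dt s₀ s₀ = 0 := by unfold dt; ring
  refine ⟨η, ?_, ?_, ?_, ?_⟩
  · intro h0
    have h1 := hηp (E e s' ![0, 1])
    rw [h0, zero_dotProduct, hZE, hs'] at h1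
    have h2 : P (Fin.last 3) * (1 * (T 1 P * (![0, 1] : Fin 2 → ℂ) 0 -
        T 0 P * (![0, 1] : Fin 2 → ℂ) 1)) ≠ 0 := by
      simp only [Matrix.cons_val_zero, Matrix.cons_val_one, mul_zero, mul_one, one_mul, zero_sub]
      exact mul_ne_zero hP3 (neg_ne_zero.2 hPT)
    exact h2 h1.symm
  · intro x
    rw [hηp, hZE, hss, zero_mul, mul_zero]
  · intro y hy
    rw [hη] at hy
    obtain ⟨v, hv⟩ : ∃ v : Fin 4 → ℂ, v = (P (Fin.last 3))⁻¹ • emb y := ⟨_, rfl⟩
    have hv3 : v (Fin.last 3) = 0 := by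
      rw [hv]
      show (P (Fin.last 3))⁻¹ * emb y (Fin.last 3) = 0
      have : emb y (Fin.last 3) = 0 := rfl
      rw [this, mul_zero]
    have hZv : Z v = 0 := by
      rw [hv, map_smul, hy, smul_zero]
    obtain ⟨c, hc⟩ : ∃ c : ℂ, c = T 0 v / T 0 P := ⟨_, rfl⟩
    obtain ⟨u, hu⟩ : ∃ u : Fin 4 → ℂ, u = v - c • P := ⟨_, rfl⟩
    have hu0 : T 0 u = 0 := by
      rw [hu, map_sub, map_smul, smul_eq_mul, hc, div_mul_cancel₀ _ hPT, sub_self]
    have hu1 : T 1 u = 0 := by
      rw [hu, map_sub, map_smul, smul_eq_mul, hc]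
      have h1 : T 1 P * T 0 v - T 0 P * T 1 v = 0 := hZv
      field_simp
      linear_combination -h1
    have hux : ∃ x : Fin 2 → ℂ, u = E e s₀ x := by
      have key : ∀ x : Fin 2 → ℂ, (∀ i j, b.coord (i, j) u = s₀ i * x j) → u = E e s₀ x := by
        intro x hx
        rw [hbE, ← b.sum_repr u]
        refine Finset.sum_congr rfl fun p _ => ?_
        congr 1
        exact hx p.1 p.2
      have h0 : ∀ j, s₀ 0 * b.coord (1, j) u = s₀ 1 * b.coord (0, j) u := by
        intro j
        have h1 : T j u = 0 := by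
          fin_cases j
          · exact hu0
          · exact hu1
        rw [hT] at h1
        linear_combination h1
      by_cases h00 : s₀ 0 = 0
      · have h01 : s₀ 1 ≠ 0 := by
          intro h1
          apply hs₀
          funext i
          fin_cases i
          · exact h00
          · exact h1
        refine ⟨fun j => b.coord (1, j) u / s₀ 1, key _ ?_⟩
        intro i j
        fin_cases i
        · show b.coord (0, j) u = s₀ 0 * (b.coord (1, j) u / s₀ 1)
          have := h0 j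
          field_simp
          linear_combination -this
        · show b.coord (1, j) u = s₀ 1 * (b.coord (1, j) u / s₀ 1)
          field_simp
      · refine ⟨fun j => b.coord (0, j) u / s₀ 0, key _ ?_⟩
        intro i j
        fin_cases i
        · show b.coord (0, j) u = s₀ 0 * (b.coord (0, j) u / s₀ 0)
          field_simp
        · show b.coord (1, j) u = s₀ 1 * (b.coord (0, j) u / s₀ 0)
          have := h0 j
          field_simp
          linear_combination this
    obtain ⟨x, hx⟩ := hux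
    refine ⟨x, ?_⟩
    rw [← hx, hu]
    funext i
    show P (Fin.last 3) * (v i.castSucc - c * P i.castSucc) -
      (v (Fin.last 3) - c * P (Fin.last 3)) * P i.castSucc = y i
    rw [hv3]
    have h1 : v i.castSucc = (P (Fin.last 3))⁻¹ * y i := by
      rw [hv]
      show (P (Fin.last 3))⁻¹ * emb y i.castSucc = _
      congr 1
      fin_cases i <;> rfl
    rw [h1]
    field_simp
    ring
  · intro k
    rw [hηp, hZE]
    have h1 : T 1 P * t k 0 - T 0 P * t k 1 ≠ 0 := by
      have h2 := hPD k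
      rw [hD] at h2
      intro h3
      apply h2
      linear_combination h3
    have h2 : dt s₀ (s k) = - dt (s k) s₀ := by unfold dt; ring
    rw [h2]
    constructor
    · intro h
      rcases mul_eq_zero.1 h with h | h
      · exact absurd h hP3
      · rcases mul_eq_zero.1 h with h | h
        · exact neg_eq_zero.1 h
        · exact absurd h h1
    · intro h
      rw [h]
      ring

end Pool.Agent.Y161.QG
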